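import Pool.Agent.X184.SS.Stm

/-! Part STEP: the gliding hump. -/

set_option autoImplicit false

namespace Pool.Agent.X61.SS

open Finset Pool.Agent.X184.SS

theorem sch_succ (n : ℕ) : Sch n ⊆ Sch (n + 1) := by
  classical
  intro F hF
  rcases F.eq_empty_or_nonempty with h | h
  · refine ⟨0, Fin.elim0, fun i => i.elim0, fun i => i.elim0, ?_, ?_⟩
    · rw [h]
      simp
    · intro a ha
      exact Nat.zero_le _
  · refine ⟨1, fun _ => F, fun _ => ⟨h, hF⟩, fun i j hij => ?_, ?_, ?_⟩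
    · exact absurd hij (by
        rw [Subsingleton.elim i j]
        exact lt_irrefl _)
    · simp
    · intro a ha
      omega

theorem sch_mono {a b : ℕ} (h : a ≤ b) : Sch a ⊆ Sch b := by
  induction b, h using Nat.le_induction with
  | base => exact subset_rfl
  | succ b _ ih => exact ih.trans (sch_succ b)

theorem t_STEP : S_STEP := by
  classical
  intro hU hH Z n C hC hT hD i hi hG ε hε N
  obtain ⟨p, hp⟩ := exists_nat_gt (3 * C * (2 + 3 / ε))
  have hp0 : (0 : ℝ) < p := lt_trans (by positivity) hp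
  have hp1 : (1 : ℝ) ≤ p := by
    have : 0 < p := by exact_mod_cast hp0
    exact_mod_cast this
  have step : ∀ M : ℕ, ∃ (z : ℕ → ℝ) (M' : ℕ), z ∈ Z ∧ (∀ j < M, z j = 0) ∧
      (∀ F ∈ Sch (n + 1), ∑ j ∈ F, |z j| ≤ 1) ∧ (∃ F ∈ Sch (n + 1), 1 / 2 ≤ ∑ j ∈ F, |z j|) ∧
      (∀ F ∈ Sch i, ∑ j ∈ F, |z j| ≤ 1 / (p * ((M : ℝ) + 1))) ∧ M ≤ M' ∧
      ∀ F ∈ Sch (n + 1), (∀ a ∈ F, M' ≤ a) → ∑ j ∈ F, |z j| ≤ 1 / (p : ℝ) ^ 2 := by
    intro M
    obtain ⟨z, k1, k2, k3, k4, k5⟩ := hG (1 / (p * ((M : ℝ) + 1))) (by positivity) M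
    obtain ⟨M', hM'⟩ := hT z k1 (1 / (p : ℝ) ^ 2) (by positivity)
    exact ⟨z, max M M', k1, k2, k3, k4, k5, le_max_left _ _, fun F hF ha =>
      hM' F hF fun a haF => (le_max_right _ _).trans (ha a haF)⟩
  choose zf Mf h1 h2 h3 h4 h5 h6 h7 using step
  obtain ⟨Nn, hNn⟩ : ∃ Nn : ℕ → ℕ, Nn = fun j => Mf^[j] (max N p) := ⟨_, rfl⟩
  have hN0 : Nn 0 = max N p := by rw [hNn]; rfl
  have hNs : ∀ j, Nn (j + 1) = Mf (Nn j) := by
    intro j
    rw [hNn]
    exact Function.iterate_succ_apply' _ _ _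
  have hmono : Monotone Nn := monotone_nat_of_le_succ fun j => by
    rw [hNs]
    exact h6 _
  obtain ⟨z, hz⟩ : ∃ z : ℕ → ℕ → ℝ, z = fun j => zf (Nn j) := ⟨_, rfl⟩
  have z1 : ∀ j, z j ∈ Z := fun j => by rw [hz]; exact h1 _
  have z2 : ∀ j, ∀ a < Nn j, z j a = 0 := fun j => by rw [hz]; exact h2 _
  have z3 : ∀ j, ∀ F ∈ Sch (n + 1), ∑ a ∈ F, |z j a| ≤ 1 := fun j => by rw [hz]; exact h3 _
  have z4 : ∀ j, ∃ F ∈ Sch (n + 1), 1 / 2 ≤ ∑ a ∈ F, |z j a| := fun j => by rw [hz]; exact h4 _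
  have z5 : ∀ j, ∀ F ∈ Sch i, ∑ a ∈ F, |z j a| ≤ 1 / (p * ((Nn j : ℝ) + 1)) := fun j => by
    rw [hz]
    exact h5 _
  have z7 : ∀ l j, l < j → ∀ F ∈ Sch (n + 1), (∀ a ∈ F, Nn j ≤ a) →
      ∑ a ∈ F, |z l a| ≤ 1 / (p : ℝ) ^ 2 := by
    intro l j hlj F hF ha
    rw [hz]
    refine h7 (Nn l) F hF fun a haF => ?_
    rw [← hNs]
    exact (hmono hlj).trans (ha a haF)
  clear h1 h2 h3 h4 h5 h7
  have hpp : 1 / (p : ℝ) ^ 2 ≤ 1 / p := by
    apply one_div_le_one_div_of_le hp0
    nlinarith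
  obtain ⟨w, hw⟩ : ∃ w : ℕ → ℝ, w = ∑ j ∈ range p, z j := ⟨_, rfl⟩
  have hwZ : w ∈ Z := by
    rw [hw]
    exact Submodule.sum_mem _ fun j _ => z1 j
  have hwa : ∀ a, w a = ∑ j ∈ range p, z j a := by
    intro a
    rw [hw, Finset.sum_apply]
  have hwle : ∀ F : Finset ℕ, ∑ a ∈ F, |w a| ≤ ∑ j ∈ range p, ∑ a ∈ F, |z j a| := by
    intro F
    rw [sum_comm]
    refine sum_le_sum fun a _ => ?_
    rw [hwa]
    exact abs_sum_le_sum_abs _ _
  -- (A)
  have hA : ∀ F ∈ Sch (n + 1), ∑ a ∈ F, |w a| ≤ p := by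
    intro F hF
    refine (hwle F).trans ((sum_le_sum fun j _ => z3 j F hF).trans (le_of_eq ?_))
    simp
  -- (B)
  have hB : ∀ F ∈ Sch (i + 1), ∑ a ∈ F, |w a| ≤ 3 := by
    intro F hF
    have hF1 : F ∈ Sch (n + 1) := sch_mono (by omega) hF
    obtain ⟨k, G, g1, g2, g3, g4⟩ := hF
    rcases F.eq_empty_or_nonempty with he | hne
    · rw [he, sum_empty]
      norm_num
    · obtain ⟨f, hf⟩ : ∃ f, f = F.min' hne := ⟨_, rfl⟩
      have hfF : f ∈ F := by rw [hf]; exact F.min'_mem hne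
      have hfl : ∀ a ∈ F, f ≤ a := fun a ha => by rw [hf]; exact F.min'_le a ha
      have hkf : k ≤ f + 1 := g4 f hfF
      have hb : ∀ j, ∑ a ∈ F, |z j a| ≤
          1 / (p : ℝ) + if Nn j ≤ f ∧ f < Nn (j + 1) then 1 else 0 := by
        intro j
        by_cases c1 : Nn (j + 1) ≤ f
        · rw [if_neg (by omega), add_zero]
          exact (z7 j (j + 1) (Nat.lt_succ_self j) F hF1 fun a ha => c1.trans (hfl a ha)).trans hpp
        · by_cases c2 : Nn j ≤ f
          · rw [if_pos ⟨c2, not_le.1 c1⟩]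
            have := z3 j F hF1
            have : 0 ≤ 1 / (p : ℝ) := by positivity
            linarith
          · rw [if_neg (fun h => c2 h.1), add_zero]
            have e1 : ∑ a ∈ F, |z j a| ≤ ∑ b : Fin k, ∑ a ∈ G b, |z j a| := by
              rw [g3, sum_biUnion]
              intro x _ y _ hxy
              rw [Function.onFun, Finset.disjoint_left]
              intro a ha hb
              rcases lt_or_gt_of_ne hxy with h | h
              · exact lt_irrefl _ (g2 x y h a ha a hb)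
              · exact lt_irrefl _ (g2 y x h a hb a ha)
            refine e1.trans ((sum_le_sum fun b _ => z5 j (G b) (g1 b).2).trans ?_)
            rw [sum_const, card_univ, Fintype.card_fin, nsmul_eq_mul]
            have e2 : (k : ℝ) ≤ (Nn j : ℝ) + 1 := by
              have : k ≤ Nn j + 1 := by omega
              exact_mod_cast this
            have e3 : (0 : ℝ) < (Nn j : ℝ) + 1 := by positivity
            rw [mul_one_div, div_le_div_iff₀ (by positivity) hp0]
            nlinarith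
      have hmid : (((range p).filter fun j => Nn j ≤ f ∧ f < Nn (j + 1)).card : ℝ) ≤ 1 := by
        have : ((range p).filter fun j => Nn j ≤ f ∧ f < Nn (j + 1)).card ≤ 1 := by
          rw [card_le_one]
          intro x hx y hy
          have hx' := (mem_filter.1 hx).2
          have hy' := (mem_filter.1 hy).2
          by_contra hne
          rcases lt_or_gt_of_ne hne with h | h
          · have := hmono (show x + 1 ≤ y from h)
            omega
          · have := hmono (show y + 1 ≤ x from h)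
            omega
        exact_mod_cast this
      refine (hwle F).trans ((sum_le_sum fun j _ => hb j).trans ?_)
      rw [sum_add_distrib, sum_const, card_range, nsmul_eq_mul, mul_one_div_cancel hp0.ne',
        sum_ite, sum_const_zero, add_zero, sum_const, nsmul_eq_mul, mul_one]
      linarith
  -- (C)
  have hex : ∀ j, ∃ G ∈ Sch n, 1 / (3 * C) ≤ ∑ a ∈ G, |z j a| := by
    intro j
    by_contra hcon
    push Not at hcon
    obtain ⟨F, hF, hF2⟩ := z4 j
    have k1 := hD (z j) (z1 j) (1 / (3 * C)) (fun G hG => (hcon G hG).le) F hF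
    have k2 : C * (1 / (3 * C)) = 1 / 3 := by
      field_simp
    rw [k2] at k1
    linarith
  choose Gf g1 g2 using hex
  obtain ⟨G', hG'⟩ : ∃ G' : ℕ → Finset ℕ, G' = fun j =>
    (Gf j).filter fun a => Nn j ≤ a ∧ a < Nn (j + 1) := ⟨_, rfl⟩
  have hmem : ∀ j a, a ∈ G' j ↔ a ∈ Gf j ∧ Nn j ≤ a ∧ a < Nn (j + 1) := by
    intro j a
    rw [hG']
    exact mem_filter
  have hGS : ∀ j, G' j ∈ Sch n := fun j => hH n _ _ (g1 j) fun a ha => ((hmem j a).1 ha).1
  have hlow : ∀ j, 1 / (3 * C) - 1 / (p : ℝ) ^ 2 ≤ ∑ a ∈ G' j, |z j a| := by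
    intro j
    have k1 : ∑ a ∈ (Gf j).filter (fun a => Nn (j + 1) ≤ a), |z j a| ≤ 1 / (p : ℝ) ^ 2 := by
      refine z7 j (j + 1) (Nat.lt_succ_self j) _ (sch_succ n (hH n _ _ (g1 j) (filter_subset _ _)))
        fun a ha => (mem_filter.1 ha).2
    have k2 : ∑ a ∈ (Gf j).filter (fun a => ¬ Nn (j + 1) ≤ a), |z j a| = ∑ a ∈ G' j, |z j a| := by
      symm
      refine sum_subset (fun a ha => ?_) fun a ha ha' => ?_
      · rw [mem_filter]
        obtain ⟨m1, m2, m3⟩ := (hmem j a).1 ha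
        exact ⟨m1, not_le.2 m3⟩
      · obtain ⟨m1, m2⟩ := mem_filter.1 ha
        rw [z2 j a, abs_zero]
        by_contra hcon
        exact ha' ((hmem j a).2 ⟨m1, not_lt.1 hcon, not_le.1 m2⟩)
    have k3 := sum_filter_add_sum_filter_not (Gf j) (fun a => Nn (j + 1) ≤ a) fun a => |z j a|
    have k4 := g2 j
    rw [k2] at k3
    linarith
  have hint : ∀ j < p, 1 / (3 * C) - 1 / (p : ℝ) ^ 2 - 1 / p ≤ ∑ a ∈ G' j, |w a| := by
    intro j hj
    have k1 : ∀ l ∈ (range p).erase j, ∑ a ∈ G' j, |z l a| ≤ 1 / (p : ℝ) ^ 2 := by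
      intro l hl
      have hlj : l ≠ j := (mem_erase.1 hl).1
      rcases lt_or_gt_of_ne hlj with h | h
      · exact z7 l j h _ (sch_succ n (hGS j)) fun a ha => ((hmem j a).1 ha).2.1
      · have : ∑ a ∈ G' j, |z l a| = 0 := by
          refine sum_eq_zero fun a ha => ?_
          rw [z2 l a, abs_zero]
          exact lt_of_lt_of_le ((hmem j a).1 ha).2.2 (hmono h)
        rw [this]
        positivity
    have k2 : ∑ l ∈ (range p).erase j, ∑ a ∈ G' j, |z l a| ≤ 1 / p := by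
      refine (sum_le_sum k1).trans ?_
      rw [sum_const, nsmul_eq_mul]
      have : (((range p).erase j).card : ℝ) ≤ p := by
        exact_mod_cast (card_le_card (erase_subset _ _)).trans (by rw [card_range])
      calc (((range p).erase j).card : ℝ) * (1 / (p : ℝ) ^ 2) ≤ p * (1 / (p : ℝ) ^ 2) :=
            mul_le_mul_of_nonneg_right this (by positivity)
        _ = 1 / p := by
            field_simp
    have k3 : ∀ a, |z j a| ≤ |w a| + ∑ l ∈ (range p).erase j, |z l a| := by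
      intro a
      have e : w a = z j a + ∑ l ∈ (range p).erase j, z l a := by
        rw [hwa]
        exact (add_sum_erase (range p) (fun l => z l a) (mem_range.2 hj)).symm
      have e2 : z j a = w a - ∑ l ∈ (range p).erase j, z l a := by
        rw [e]
        ring
      rw [e2]
      exact (abs_sub _ _).trans (add_le_add le_rfl (abs_sum_le_sum_abs _ _))
    have k4 : ∑ a ∈ G' j, |z j a| ≤ ∑ a ∈ G' j, |w a| +
        ∑ l ∈ (range p).erase j, ∑ a ∈ G' j, |z l a| := by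
      rw [sum_comm (s := (range p).erase j), ← sum_add_distrib]
      exact sum_le_sum fun a _ => k3 a
    have k5 := hlow j
    linarith
  have hCF : ∃ F ∈ Sch (n + 1), (p : ℝ) / (3 * C) - 2 ≤ ∑ a ∈ F, |w a| := by
    refine ⟨univ.biUnion fun j : Fin p => G' j, hU n p (fun j => G' j) (fun j => hGS j) ?_ ?_, ?_⟩
    · intro x y hxy a ha b hb
      exact lt_of_lt_of_le ((hmem _ a).1 ha).2.2
        ((hmono (show (x : ℕ) + 1 ≤ y from hxy)).trans ((hmem _ b).1 hb).2.1)
    · intro x a ha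
      have e1 := ((hmem _ a).1 ha).2.1
      have e2 := hmono (Nat.zero_le (x : ℕ))
      rw [hN0] at e2
      have := le_max_right N p
      omega
    · rw [sum_biUnion]
      · have e1 : ∑ j : Fin p, (1 / (3 * C) - 1 / (p : ℝ) ^ 2 - 1 / p) ≤
            ∑ j : Fin p, ∑ a ∈ G' j, |w a| := sum_le_sum fun j _ => hint j j.2
        refine le_trans ?_ e1
        rw [sum_const, card_univ, Fintype.card_fin, nsmul_eq_mul]
        have e2 : (p : ℝ) * (1 / (3 * C) - 1 / (p : ℝ) ^ 2 - 1 / p) =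
            p / (3 * C) - 1 / p - 1 := by
          field_simp
        rw [e2]
        have e3 : 1 / (p : ℝ) ≤ 1 := by
          rw [div_le_one hp0]
          exact hp1
        linarith
      · intro x _ y _ hxy
        rw [Function.onFun, Finset.disjoint_left]
        intro a ha hb
        have m1 := ((hmem _ a).1 ha).2
        have m2 := ((hmem _ a).1 hb).2
        have hne : (x : ℕ) ≠ y := fun h => hxy (Fin.ext h)
        rcases lt_or_gt_of_ne hne with h | h
        · have := hmono (show (x : ℕ) + 1 ≤ y from h)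
          omega
        · have := hmono (show (y : ℕ) + 1 ≤ x from h)
          omega
  -- (D)
  obtain ⟨s, hs⟩ : ∃ s : Set ℝ, s = {r | ∃ F ∈ Sch (n + 1), r = ∑ a ∈ F, |w a|} := ⟨_, rfl⟩
  have hbdd : BddAbove s := by
    refine ⟨p, ?_⟩
    rintro r hr
    rw [hs] at hr
    obtain ⟨F, hF, rfl⟩ := hr
    exact hA F hF
  obtain ⟨F₀, hF₀, hF₀2⟩ := hCF
  have hne : s.Nonempty := ⟨_, by rw [hs]; exact ⟨F₀, hF₀, rfl⟩⟩
  have hle : ∀ F ∈ Sch (n + 1), ∑ a ∈ F, |w a| ≤ sSup s := fun F hF =>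
    le_csSup hbdd (by rw [hs]; exact ⟨F, hF, rfl⟩)
  obtain ⟨M, hM⟩ : ∃ M : ℝ, M = sSup s := ⟨_, rfl⟩
  rw [← hM] at hle
  have hMbig : 3 / ε < M := by
    have e1 : 2 + 3 / ε < p / (3 * C) := by
      rw [lt_div_iff₀ (by positivity)]
      linarith
    have e2 := hle F₀ hF₀
    linarith
  have hM0 : 0 < M := lt_trans (by positivity) hMbig
  have hsum : ∀ F : Finset ℕ, ∑ a ∈ F, |(M⁻¹ • w) a| = M⁻¹ * ∑ a ∈ F, |w a| := by
    intro F
    rw [mul_sum]
    refine sum_congr rfl fun a _ => ?_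
    rw [Pi.smul_apply, smul_eq_mul, abs_mul, abs_of_pos (inv_pos.2 hM0)]
  refine ⟨M⁻¹ • w, Submodule.smul_mem _ _ hwZ, ?_, ?_, ?_, ?_⟩
  · intro a ha
    rw [Pi.smul_apply, hwa, sum_eq_zero, smul_zero]
    intro j _
    refine z2 j a (lt_of_lt_of_le ha ?_)
    have e2 := hmono (Nat.zero_le j)
    rw [hN0] at e2
    exact (le_max_left N p).trans e2
  · intro F hF
    rw [hsum, inv_mul_le_iff₀ hM0, mul_one]
    exact hle F hF
  · obtain ⟨r, hr, hr2⟩ := exists_lt_of_lt_csSup hne (show M / 2 < sSup s by rw [← hM]; linarith)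
    rw [hs] at hr
    obtain ⟨F, hF, rfl⟩ := hr
    refine ⟨F, hF, ?_⟩
    rw [hsum, le_inv_mul_iff₀ hM0]
    linarith
  · intro F hF
    rw [hsum, inv_mul_le_iff₀ hM0]
    refine (hB F hF).trans ?_
    rw [div_lt_iff₀ hε] at hMbig
    linarith

end Pool.Agent.X61.SS
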